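import Pool.Agent.Work.MP_acdd82_co.Basic

set_option autoImplicit false

namespace Pool.Agent.Work.MP_acdd82_co

lemma k4Par_ground (d : ℕ) : (k4Par d).E = Set.univ := by
  rfl

lemma k4Par_isBase_iff (d : ℕ) (hd : 0 < d) (B : Set (Fin 6 × Fin d)) :
    (k4Par d).IsBase B ↔ (∃ F ∈ k4Bases, (F : Set (Fin 6)) = Prod.fst '' B) ∧
      Set.InjOn Prod.fst B := by
  unfold k4Par
  rw [Matroid.comap_isBase_iff]
  have hE : k4.E = Set.univ := rfl
  have hsurj : Function.Surjective (Prod.fst : Fin 6 × Fin d → Fin 6) := fun e => ⟨(e, ⟨0, hd⟩), rfl⟩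
  have h1 : (Prod.fst : Fin 6 × Fin d → Fin 6) '' (Prod.fst ⁻¹' k4.E) = k4.E := by
    rw [hE, Set.preimage_univ, Set.image_univ, hsurj.range_eq]
  rw [h1, Matroid.isBasis_ground_iff, k4_isBase_iff]
  simp [hE]

/-- the four stars -/
def star (v : Fin 4) : Finset (Fin 6) :=
  match v with
  | 0 => {0, 1, 2}
  | 1 => {0, 4, 5}
  | 2 => {1, 3, 5}
  | 3 => {2, 3, 4}

lemma star_of_base : ∀ F ∈ k4Bases, (∀ a ∈ F, a + 3 ∉ F) → ∃ v, F = star v := by
  decide +kernel

lemma main_neg (d : ℕ) (hd : Odd d) (B : Fin (2 * d) → Set (Fin 6 × Fin d))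
    (hB : ∀ i, (k4Par d).IsBase (B i) ∧ (oppGraph d).IsIndepSet (B i))
    (hdisj : Pairwise (fun i j => Disjoint (B i) (B j))) : False := by
  classical
  have hd0 : 0 < d := hd.pos
  have h1 : ∀ i, ∃ v, ∀ e, (∃ j, (e, j) ∈ B i) ↔ e ∈ star v := by
    intro i
    obtain ⟨hBi, hI⟩ := hB i
    rw [k4Par_isBase_iff d hd0] at hBi
    obtain ⟨⟨F, hF, hFB⟩, -⟩ := hBi
    have hmem : ∀ e, (∃ j, (e, j) ∈ B i) ↔ e ∈ F := by
      intro e
      rw [← Finset.mem_coe, hFB]
      simp
    have hopp : ∀ a ∈ F, a + 3 ∉ F := by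
      intro a ha ha'
      obtain ⟨j, hj⟩ := (hmem a).2 ha
      obtain ⟨j', hj'⟩ := (hmem (a + 3)).2 ha'
      have hne : ((a, j) : Fin 6 × Fin d) ≠ (a + 3, j') := by
        intro h
        have h2 : a = a + 3 := congrArg Prod.fst h
        omega
      exact hI hj hj' hne rfl
    obtain ⟨v, rfl⟩ := star_of_base F hF hopp
    exact ⟨v, hmem⟩
  choose c hc using h1
  -- each edge class is used at most `d` times
  have h2 : ∀ e : Fin 6, (Finset.univ.filter (fun i => e ∈ star (c i))).card ≤ d := by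
    intro e
    have : Nonempty (Fin d) := ⟨⟨0, hd0⟩⟩
    have h3 : ∀ i, e ∈ star (c i) → ∃ j, (e, j) ∈ B i := fun i hi => (hc i e).2 hi
    choose! g hg using h3
    have h4 : (Finset.univ.filter (fun i => e ∈ star (c i))).card ≤
        (Finset.univ : Finset (Fin d)).card := by
      refine Finset.card_le_card_of_injOn g (fun _ _ => Finset.mem_coe.2 (Finset.mem_univ _)) ?_
      intro i hi i' hi' hii'
      by_contra hne
      have hi1 : e ∈ star (c i) := by simpa using hi
      have hi2 : e ∈ star (c i') := by simpa using hi'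
      have m1 := hg i hi1
      have m2 := hg i' hi2
      rw [hii'] at m1
      exact (Set.disjoint_left.1 (hdisj hne)) m1 m2
    simpa using h4
  -- numbers of stars
  have h5 : ∀ e : Fin 6, (Finset.univ.filter (fun i => e ∈ star (c i))).card =
      ∑ v : Fin 4, if e ∈ star v then (Finset.univ.filter (fun i => c i = v)).card else 0 := by
    intro e
    rw [Finset.card_eq_sum_card_fiberwise (f := c) (t := Finset.univ)
      (fun _ _ => Finset.mem_coe.2 (Finset.mem_univ _))]
    refine Finset.sum_congr rfl fun v _ => ?_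
    split_ifs with h
    · congr 1
      ext i
      simp only [Finset.mem_filter, Finset.mem_univ, true_and]
      constructor
      · rintro ⟨-, h'⟩; exact h'
      · rintro rfl; exact ⟨h, rfl⟩
    · rw [Finset.card_eq_zero, Finset.filter_eq_empty_iff]
      intro i hi
      rintro rfl
      simp only [Finset.mem_filter, Finset.mem_univ, true_and] at hi
      exact h hi
  have h6 : 2 * d = ∑ v : Fin 4, (Finset.univ.filter (fun i => c i = v)).card := by
    have := Finset.card_eq_sum_card_fiberwise (s := (Finset.univ : Finset (Fin (2 * d)))) (f := c)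
      (t := Finset.univ) (fun _ _ => Finset.mem_coe.2 (Finset.mem_univ _))
    simpa using this
  have e0 := h2 0
  have e1 := h2 1
  have e2 := h2 2
  have e3 := h2 3
  have e4 := h2 4
  have e5 := h2 5
  rw [h5] at e0 e1 e2 e3 e4 e5
  rw [Fin.sum_univ_four] at e0 e1 e2 e3 e4 e5 h6
  obtain ⟨m, hm⟩ := hd
  simp [star] at e0 e1 e2 e3 e4 e5
  omega

/-- Two complementary Hamiltonian paths of `K_4`. -/
def path (b : Fin 2) : Finset (Fin 6) :=
  match b with
  | 0 => {0, 5, 3}
  | 1 => {1, 2, 4}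

lemma path_mem (b : Fin 2) : path b ∈ k4Bases := by
  revert b
  decide +kernel

lemma path_disj {b b' : Fin 2} {e : Fin 6} (h : e ∈ path b) (h' : e ∈ path b') : b = b' := by
  revert b b' e
  decide +kernel

lemma main_pos (d : ℕ) (hd : 0 < d) :
    ∃ B : Fin (2 * d) → Set (Fin 6 × Fin d), (∀ i, (k4Par d).IsBase (B i)) ∧
      Pairwise (fun i j => Disjoint (B i) (B j)) := by
  refine ⟨fun i => {x | x.1 ∈ path (finProdFinEquiv.symm i).1 ∧ x.2 = (finProdFinEquiv.symm i).2},
    ?_, ?_⟩
  · intro i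
    rw [k4Par_isBase_iff d hd]
    refine ⟨⟨path (finProdFinEquiv.symm i).1, path_mem _, ?_⟩, ?_⟩
    · ext e
      simp
    · intro x hx y hy hxy
      obtain ⟨hx1, hx2⟩ := hx
      obtain ⟨hy1, hy2⟩ := hy
      exact Prod.ext hxy (hx2.trans hy2.symm)
  · intro i j hij
    rw [Set.disjoint_left]
    rintro x ⟨hx1, hx2⟩ ⟨hy1, hy2⟩
    apply hij
    apply finProdFinEquiv.symm.injective
    exact Prod.ext (path_disj hx1 hy1) (hx2.symm.trans hy2)

lemma oppGraph_degree (d : ℕ) (x : Fin 6 × Fin d) : (oppGraph d).degree x = d := by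
  have : (oppGraph d).neighborFinset x = ({x.1 + 3} : Finset (Fin 6)) ×ˢ Finset.univ := by
    ext y
    rw [SimpleGraph.mem_neighborFinset, Finset.mem_product, Finset.mem_singleton]
    simp only [Finset.mem_univ, and_true]
    exact eq_comm
  rw [SimpleGraph.degree, this]
  simp

lemma oppGraph_maxDegree (d : ℕ) (hd : 0 < d) : (oppGraph d).maxDegree = d := by
  apply le_antisymm
  · exact SimpleGraph.maxDegree_le_of_forall_degree_le _ _ fun v => (oppGraph_degree d v).le
  · have := (oppGraph d).degree_le_maxDegree (0, ⟨0, hd⟩)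
    rwa [oppGraph_degree] at this

end Pool.Agent.Work.MP_acdd82_co
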