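import Mathlib

set_option autoImplicit false

namespace Pool.Agent.Work.MP_acdd82_co

/-- The sixteen spanning trees of the complete graph on four vertices, where the six edges
`01, 02, 03, 23, 13, 12` are numbered `0, 1, 2, 3, 4, 5`; opposite edges differ by `3`. -/
def k4Bases : Finset (Finset (Fin 6)) :=
  (Finset.powersetCard 3 Finset.univ).filter
    (fun F => F ≠ {0, 1, 5} ∧ F ≠ {0, 2, 4} ∧ F ≠ {1, 2, 3} ∧ F ≠ {3, 4, 5})

set_option maxRecDepth 100000 in
lemma k4Bases_exchange : ∀ X ∈ k4Bases, ∀ Y ∈ k4Bases, ∀ a ∈ X \ Y, ∃ b ∈ Y \ X,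
    insert b (X.erase a) ∈ k4Bases := by
  decide +kernel

/-- The graphic matroid of the complete graph on four vertices. -/
def k4 : Matroid (Fin 6) :=
  Matroid.ofExistsFiniteIsBase Set.univ
    (fun B => ∃ F ∈ k4Bases, (F : Set (Fin 6)) = B)
    ⟨(({0, 1, 2} : Finset (Fin 6)) : Set (Fin 6)), ⟨{0, 1, 2}, by decide +kernel, rfl⟩,
      Finset.finite_toSet _⟩
    (by
      rintro _ _ ⟨X, hX, rfl⟩ ⟨Y, hY, rfl⟩ a ha
      have ha' : a ∈ X \ Y := by
        simpa using ha
      obtain ⟨b, hb, hb'⟩ := k4Bases_exchange X hX Y hY a ha'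
      refine ⟨b, by simpa using hb, insert b (X.erase a), hb', by simp⟩)
    (fun _ _ => Set.subset_univ _)

lemma k4_isBase_iff (B : Set (Fin 6)) : k4.IsBase B ↔ ∃ F ∈ k4Bases, (F : Set (Fin 6)) = B :=
  Iff.rfl

/-- Every element of the graphic matroid of `K_4` replaced by `d` parallel copies. -/
def k4Par (d : ℕ) : Matroid (Fin 6 × Fin d) := k4.comap Prod.fst

/-- The graph on the copies in which copies of opposite edges are adjacent. -/
def oppGraph (d : ℕ) : SimpleGraph (Fin 6 × Fin d) where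
  Adj x y := x.1 + 3 = y.1
  symm := ⟨by
    intro x y h
    rcases x with ⟨x, _⟩
    rcases y with ⟨y, _⟩
    simp only at h ⊢
    omega⟩
  loopless := ⟨by
    intro x h
    rcases x with ⟨x, _⟩
    simp only at h
    omega⟩

instance (d : ℕ) : DecidableRel (oppGraph d).Adj :=
  fun x y => inferInstanceAs (Decidable (x.1 + 3 = y.1))

end Pool.Agent.Work.MP_acdd82_co
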